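import Pool.Agent.Helper23.VMain

/-!
# The relative flow of weights embeds into the relative bicentralizer flow
-/

open scoped InnerProductSpace Topology ENNReal
open Filter
open Pool.Agent.Helper23.RBF

namespace Pool.Agent.Results.MP_357da3_an.EmbeddedFlow

universe u

variable {H : Type u} [NormedAddCommGroup H] [InnerProductSpace ℂ H] [CompleteSpace H]

open Pool.Agent.Helper23 in
lemma toSetting {M N : VonNeumannAlgebra H} {E : (H →L[ℂ] H) → (H →L[ℂ] H)} {ξ : H}
    (hI : Inclusion M N E ξ) : Setting M N E ξ where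
  le := hI.sub
  norm_one := hI.norm_one
  cyc := hI.cyclic
  sep := hI.separating
  E_mem := hI.mem
  E_bimod := hI.bimod
  E_fix := hI.fix
  E_state := hI.state

/-- Let `N ⊆ M` be any inclusion of von Neumann algebras with expectation `E`, where `N` is of
type III₁, and let `φ` be a faithful normal state of `N`. Nothing is assumed on Connes'
bicentralizer `B(N, φ)`. Then, for a dominant weight `ψ` of `N`, the algebra
`C = (N_ψ)' ∩ M` of the relative flow of weights embeds into the relative bicentralizer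
`B = B(N ⊆ M, φ)`, by a normal *-homomorphism `ρ` which carries the relative flow of weights to
the relative bicentralizer flow, and `E(ρ(y)) = E(y)` is a scalar for every `y` in `C`. This
embedding is onto if and only if `B(N, φ)` is trivial. -/
theorem result (M N : VonNeumannAlgebra H) (E : (H →L[ℂ] H) → (H →L[ℂ] H)) (ξ : H)
    (hI : Inclusion M N E ξ) (hN : TypeIIIOne N) :
    ∃ (B : VonNeumannAlgebra H) (ψ : (H →L[ℂ] H) → ℝ≥0∞) (C : VonNeumannAlgebra H)
      (ρ : (H →L[ℂ] H) → (H →L[ℂ] H)),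
      IsBicentralizer M N ξ B ∧ IsDominant N ψ ∧ IsRelCommCentralizer M N ψ C ∧
      IsStarEmbedding C B ρ ∧ BoundedStronglyContinuous C ρ ∧ AsympIntertwines N ξ ψ C ρ ∧
      (∀ β : ℝ → (H →L[ℂ] H) → (H →L[ℂ] H), (∀ l : ℝ, 0 < l → ∀ x ∈ B, β l x ∈ B) →
        FlowProperty N ξ B β → ∀ l : ℝ, 0 < l → ∀ u, ScalingUnitary N ψ l u →
          ∀ y ∈ C, β l (ρ y) = ρ (u * y * star u)) ∧
      (∀ y ∈ C, ∃ c : ℂ, E y = c • (1 : H →L[ℂ] H) ∧ E (ρ y) = c • (1 : H →L[ℂ] H)) ∧
      ((∀ x ∈ B, ∃ y ∈ C, ρ y = x) ↔ TrivialBicentralizer N ξ) := by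
  have S := toSetting hI
  obtain ⟨ψ, hψ, ρ, h1, h2, h3, h4, h5, h6⟩ := S.main_embed
    (show Pool.Agent.Helper23.TypeIIIOne N from hN)
  exact ⟨S.Balg, ψ, Pool.Agent.Helper23.Calg M N ψ, ρ, S.Balg_isBicentralizer, hψ,
    Pool.Agent.Helper23.mem_Calg, h1, h2, h3, h4, h5, h6⟩

end Pool.Agent.Results.MP_357da3_an.EmbeddedFlow
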