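import Pool.Agent.Helper23.VFinIdx
import Pool.Agent.Helper23.VDefs3

/-!
# Inclusions for which the algebra of the relative flow of weights is finite dimensional
-/

open scoped InnerProductSpace Topology ENNReal
open Filter
open Pool.Agent.Helper23.RBF

namespace Pool.Agent.Results.MP_357da3_an.FiniteDimensionalCase

universe u

variable {H : Type u} [NormedAddCommGroup H] [InnerProductSpace ℂ H] [CompleteSpace H]

open Pool.Agent.Helper23 in
lemma toSetting {M N : VonNeumannAlgebra H} {E : (H →L[ℂ] H) → (H →L[ℂ] H)} {ξ : H}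
    (hI : Inclusion M N E ξ) : Setting M N E ξ where
  le := hI.sub
  norm_one := hI.norm_one
  cyc := hI.cyclic
  sep := hI.separating
  E_mem := hI.mem
  E_bimod := hI.bimod
  E_fix := hI.fix
  E_state := hI.state

/-- Let `N ⊆ M` be an inclusion with expectation, where `N` is of type III₁, let `φ` be a
faithful normal state of `N`, and suppose that the algebra `C = (N_ψ)' ∩ M` of the relative flow
of weights is finite dimensional, which is the case if the index is finite. Then the following
are equivalent: Connes' bicentralizer `B(N, φ)` is trivial; the relative bicentralizer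
`B = B(N ⊆ M, φ)` is isomorphic to `C`; there is an isomorphism with all the properties asked for
in Q1. -/
theorem result (M N : VonNeumannAlgebra H) (E : (H →L[ℂ] H) → (H →L[ℂ] H)) (ξ : H)
    (hI : Inclusion M N E ξ) (hN : TypeIIIOne N) :
    ∃ (B : VonNeumannAlgebra H) (ψ : (H →L[ℂ] H) → ℝ≥0∞) (C : VonNeumannAlgebra H),
      IsBicentralizer M N ξ B ∧ IsDominant N ψ ∧ IsRelCommCentralizer M N ψ C ∧
      (FiniteIndex M E → FiniteDimensional ℂ C.toStarSubalgebra) ∧
      (FiniteDimensional ℂ C.toStarSubalgebra →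
        List.TFAE [TrivialBicentralizer N ξ,
          ∃ π : (H →L[ℂ] H) → (H →L[ℂ] H), IsStarIso B C π,
          ∃ (β : ℝ → (H →L[ℂ] H) → (H →L[ℂ] H)) (π : (H →L[ℂ] H) → (H →L[ℂ] H)),
            IsRelativeBicentralizerFlow N ξ B β ∧ IsStarIso B C π ∧
            BoundedStronglyContinuous B π ∧ IntertwinesFlows N ψ B β π ∧
            PreservesState E ξ B π]) := by
  have S := toSetting hI
  obtain ⟨ψ, hψ, h1, h2, h3⟩ := S.main_finite
    (show Pool.Agent.Helper23.TypeIIIOne N from hN)
  refine ⟨S.Balg, ψ, Pool.Agent.Helper23.Calg M N ψ, S.Balg_isBicentralizer, hψ,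
    Pool.Agent.Helper23.mem_Calg, ?_, fun hfin => ?_⟩
  · rintro ⟨c, hc, hE⟩
    exact h1 c hc hE
  · tfae_have 1 → 3 := fun h => by
      obtain ⟨g0, π, g1, g2, g3, g4⟩ := h3 h
      exact ⟨_, π, g0, g1, g2, g3, g4⟩
    tfae_have 3 → 2 := fun ⟨_, π, _, h, _⟩ => ⟨π, h⟩
    tfae_have 2 → 1 := h2 hfin
    tfae_finish

end Pool.Agent.Results.MP_357da3_an.FiniteDimensionalCase
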