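import Pool.Agent.Helper23.UFin

/-!
# The relative bicentralizer flow is the relative flow of weights when the smaller algebra has
# trivial bicentralizer
-/

open scoped InnerProductSpace Topology ENNReal
open Filter
open Pool.Agent.Helper23.RBF

namespace Pool.Agent.Results.MP_357da3_an.TrivialBicentralizer

universe u

variable {H : Type u} [NormedAddCommGroup H] [InnerProductSpace ℂ H] [CompleteSpace H]

open Pool.Agent.Helper23 in
lemma toSetting {M N : VonNeumannAlgebra H} {E : (H →L[ℂ] H) → (H →L[ℂ] H)} {ξ : H}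
    (hI : Inclusion M N E ξ) : Setting M N E ξ where
  le := hI.sub
  norm_one := hI.norm_one
  cyc := hI.cyclic
  sep := hI.separating
  E_mem := hI.mem
  E_bimod := hI.bimod
  E_fix := hI.fix
  E_state := hI.state

/-- Let `N ⊆ M` be an inclusion of von Neumann algebras with expectation `E`, where `N` is of
type III₁, and let `φ` be a faithful normal state of `N`. If Connes' bicentralizer `B(N, φ)` is
trivial, then the relative bicentralizer flow of `φ` is isomorphic to the relative flow of
weights, by an isomorphism with all the properties asked for in Q1. -/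
theorem result (M N : VonNeumannAlgebra H) (E : (H →L[ℂ] H) → (H →L[ℂ] H)) (ξ : H)
    (hI : Inclusion M N E ξ) (hN : TypeIIIOne N) (hB : TrivialBicentralizer N ξ) :
    ∃ (B : VonNeumannAlgebra H) (β : ℝ → (H →L[ℂ] H) → (H →L[ℂ] H)),
      IsBicentralizer M N ξ B ∧ IsRelativeBicentralizerFlow N ξ B β ∧
      ∃ (ψ : (H →L[ℂ] H) → ℝ≥0∞) (C : VonNeumannAlgebra H) (π : (H →L[ℂ] H) → (H →L[ℂ] H)),
        IsDominant N ψ ∧ IsRelCommCentralizer M N ψ C ∧ IsStarIso B C π ∧
        BoundedStronglyContinuous B π ∧ IntertwinesFlows N ψ B β π ∧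
        PreservesState E ξ B π := by
  have S := toSetting hI
  obtain ⟨h0, ψ, hψ, π, h1, h2, h3, h4⟩ := S.main_trivial
    (show Pool.Agent.Helper23.TypeIIIOne N from hN) (fun x hx => hB x hx.1 hx.2)
  refine ⟨S.Balg, Pool.Agent.Helper23.btU M N ξ, S.Balg_isBicentralizer, h0, ψ,
    Pool.Agent.Helper23.Calg M N ψ, π, hψ, Pool.Agent.Helper23.mem_Calg, h1, h2, h3,
    fun x hx => ?_⟩
  rw [h4 x hx, S.E_state _ ((S.Balg_isBicentralizer _).1 hx).1]

end Pool.Agent.Results.MP_357da3_an.TrivialBicentralizer
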